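import Pool.Agent.Helper57.SS.Goals

/-!
# Project SS, packet HZC: limit argument for the Herglotz theorem on the group of pairs of integers
-/

set_option autoImplicit false

namespace Pool.Agent.Helper3.SS

open MeasureTheory Filter Topology Pool.Agent.Helper57.SS

lemma e2_cont (p : ℤ × ℤ) : Continuous (e2 p) := by
  unfold e2
  exact ((fourier p.1).continuous.comp continuous_fst).mul ((fourier p.2).continuous.comp continuous_snd)

lemma fac_tendsto (x : ℝ) : Tendsto (fun N : ℕ => max 0 (1 - |x| / ((N + 1 : ℕ) : ℝ))) atTop (𝓝 1) := by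
  have h1 : Tendsto (fun N : ℕ => |x| / ((N + 1 : ℕ) : ℝ)) atTop (𝓝 0) :=
    (tendsto_const_div_atTop_nhds_zero_nat |x|).comp (tendsto_add_atTop_nat 1)
  have h2 : Tendsto (fun N : ℕ => max 0 (1 - |x| / ((N + 1 : ℕ) : ℝ))) atTop (𝓝 (max 0 (1 - 0))) :=
    tendsto_const_nhds.max (tendsto_const_nhds.sub h1)
  simpa using h2

theorem gHZC : G_HZC := by
  intro hP φ hev hpd
  have h0 : 0 ≤ φ 0 := by
    have := hpd (Finsupp.single 0 1)
    simpa using this
  choose σ hσf hσ using fun N : ℕ => hP φ hev hpd (N + 1) (Nat.succ_pos N)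
  let F : ℕ → FiniteMeasure (Ci × Ci) := fun N => ⟨σ N, hσf N⟩
  have hmass : ∀ N, (F N).mass ≤ (φ 0).toNNReal := by
    intro N
    have : IsFiniteMeasure (σ N) := hσf N
    have h1 := hσ N 0
    have h2 : ∫ z, e2 0 z ∂(σ N) = (((σ N).real Set.univ : ℝ) : ℂ) := by
      have h3 : ∀ z, e2 0 z = 1 := fun z => by simp [e2]
      simp only [h3, integral_const]
      simp
    rw [h2] at h1
    have h4 : (σ N).real Set.univ = φ 0 := by
      have h5 := Complex.ofReal_injective h1
      rw [h5]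
      simp
    have h6 : (F N).mass = (φ 0).toNNReal := by
      rw [← h4]
      apply NNReal.eq
      rw [Real.coe_toNNReal _ measureReal_nonneg]
      rfl
    exact h6.le
  let U : Ultrafilter ℕ := Ultrafilter.of atTop
  have hU : (U : Filter ℕ) ≤ atTop := Ultrafilter.of_le atTop
  have hc := isCompact_setOfPred_finiteMeasure_le_of_compactSpace (Ci × Ci) (φ 0).toNNReal
  obtain ⟨μ, -, hlim⟩ := hc.ultrafilter_le_nhds' (U.map F) (by
    rw [Ultrafilter.mem_map]
    exact Filter.univ_mem' hmass)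
  refine ⟨μ, inferInstance, fun p => ?_⟩
  have hlim' : Tendsto F U (𝓝 μ) := hlim
  have t1 := (FiniteMeasure.tendsto_iff_forall_integral_rclike_tendsto ℂ).1 hlim'
    (BoundedContinuousFunction.mkOfCompact ⟨e2 p, e2_cont p⟩)
  have t2 : Tendsto (fun N : ℕ => ((φ p * (max 0 (1 - |(p.1 : ℝ)| / ((N + 1 : ℕ) : ℝ)) *
      max 0 (1 - |(p.2 : ℝ)| / ((N + 1 : ℕ) : ℝ))) : ℝ) : ℂ)) atTop (𝓝 ((φ p * (1 * 1) : ℝ) : ℂ)) := by
    refine (Complex.continuous_ofReal.tendsto _).comp ?_
    exact tendsto_const_nhds.mul ((fac_tendsto _).mul (fac_tendsto _))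
  rw [mul_one, mul_one] at t2
  refine tendsto_nhds_unique t1 ((t2.mono_left hU).congr fun N => ?_)
  exact (hσ N p).symm

end Pool.Agent.Helper3.SS
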